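import Pool.Agent.Q15.LGMain

/-! The local-global property depends on the presentation in general, but not for linear
conditions. -/

namespace Pool.Agent.Results.MP_b44554_al.PresentationDependence

open Q15LG

/-- There are equivalent strong Maltsev conditions of which the first has the local-global
property and the second does not; but of two equivalent linear strong Maltsev conditions either
both or none have it. -/
theorem result :
    (∃ S₁ S₂ : Cond, Equivalent S₁ S₂ ∧ LocalGlobal S₁ ∧ ¬ LocalGlobal S₂) ∧
    (∀ S₁ S₂ : Cond, S₁.IsLinear → S₂.IsLinear → Equivalent S₁ S₂ →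
      (LocalGlobal S₁ ↔ LocalGlobal S₂)) :=
  ⟨⟨triv, nonl, equivalent_triv_nonl, localGlobal_triv, not_localGlobal_nonl⟩,
    fun S₁ S₂ h₁ h₂ he => ⟨localGlobal_of_equivalent S₁ S₂ h₁ h₂ he,
      localGlobal_of_equivalent S₂ S₁ h₂ h₁ fun A => (he A).symm⟩⟩

end Pool.Agent.Results.MP_b44554_al.PresentationDependence
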